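import Pool.Agent.H40.NilReg

open Pool.Agent.H40.NilReg in
theorem Pool.Agent.Results.MP_00fd70_lc.PerfectRegular.result :
    ∀ (K : Type) [Field K] (n : ℕ), 2 ≤ n → ∀ (r : ℕ) (A : Type) [NonUnitalRing A] [Module K A]
      [IsScalarTower K A A] [SMulCommClass K A A] (x : Fin r → A), Nil n A →
      (∀ (B : Type) [NonUnitalRing B] [Module K B] [IsScalarTower K B B] [SMulCommClass K B B],
        Nil n B → ∀ f : Fin r → B, ∃! φ : A →ₙₐ[K] B, ∀ i, φ (x i) = f i) →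
      (∀ (k : ℕ) (a b : Fin k → A), SameTp K A A (· * ·) (· * ·) a b ↔
        ∃ σ : A →ₙₐ[K] A, Function.Bijective σ ∧ ∀ i, σ (a i) = b i) ∧
      ∀ (H : Type) [NonUnitalRing H] [Module K H] [IsScalarTower K H H] [SMulCommClass K H H],
        Nil n H → Isotypic K A H (· * ·) (· * ·) → ∃ f : A →ₙₐ[K] H, Function.Bijective f :=
  fun _ _ _ hn _ _ _ _ _ _ x h0 hU =>
    ⟨(assoc_main (by omega) x h0 hU).1, fun H _ _ _ _ _ => (assoc_main (by omega) x h0 hU).2 H⟩
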